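import Pool.Agent.Helper56.U5.C3
import Pool.Agent.Helper27.PL.Sc
import Pool.Agent.Helper83.WB.En

/-!
# Project DV, UP half, (U5): one block moment near the block, all centres and scales
-/

open Finset Filter Topology MeasureTheory

namespace DV

open RP4 (V par bdry dom mass avg Om BdryPar Deloc)
open GF (Cc Pl Ne)
open GF.Lat (Xd win)

/-- an even lattice vector near a given point -/
lemma even_near {δ : ℝ} (hδ : 0 < δ) (p : Pl) : ∃ a : V, Even (par a) ∧ dist (p - pt δ a) 0 ≤ 2 * δ := by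
  have key : ∀ (c : ℝ) (e : ℤ), e = 0 ∨ e = 1 → |c - δ * ((⌊c / δ⌋ + e : ℤ) : ℝ)| ≤ 2 * δ := by
    intro c e he
    have h1 := Int.floor_le (c / δ)
    have h2 := Int.lt_floor_add_one (c / δ)
    rw [le_div_iff₀ hδ] at h1
    rw [div_lt_iff₀ hδ] at h2
    rw [abs_le]
    push_cast
    rcases he with rfl | rfl
    · push_cast
      constructor <;> nlinarith
    · push_cast
      constructor <;> nlinarith
  have hd : ∀ a : V, |p.1 - δ * (a.1 : ℝ)| ≤ 2 * δ → |p.2 - δ * (a.2 : ℝ)| ≤ 2 * δ →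
      dist (p - pt δ a) 0 ≤ 2 * δ := by
    intro a h1 h2
    rw [Prod.dist_eq, max_le_iff, Real.dist_eq, Real.dist_eq]
    unfold pt
    simpa using ⟨h1, h2⟩
  rcases Int.even_or_odd (⌊p.1 / δ⌋ + ⌊p.2 / δ⌋) with h | h
  · refine ⟨(⌊p.1 / δ⌋, ⌊p.2 / δ⌋), h, hd _ ?_ ?_⟩
    · simpa using key p.1 0 (Or.inl rfl)
    · simpa using key p.2 0 (Or.inl rfl)
  · refine ⟨(⌊p.1 / δ⌋, ⌊p.2 / δ⌋ + 1), ?_, hd _ ?_ ?_⟩
    · show Even (⌊p.1 / δ⌋ + (⌊p.2 / δ⌋ + 1))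
      rw [← add_assoc]
      exact h.add_one
    · simpa using key p.1 0 (Or.inl rfl)
    · exact key p.2 1 (Or.inr rfl)

/-- (C3) -/
theorem c3 (hd : Deloc) (hF : FlatC) (hZ : ZoneC) {κ A η : ℝ} (hκ : 0 < κ) (hκ1 : κ < 1) (hη : 0 < η) (n : ℕ) :
    ∃ C > 0, ∀ (p : Pl) (t : ℝ), 0 < t → ∀ᶠ δ in 𝓝[>] (0 : ℝ), ∀ (S : Finset V) (E : (V → ℤ) → Prop),
      (∀ v ∈ S, t ≤ dist (pt δ v) p) → Dec E →
      (∀ g g' : V → ℤ, (∀ v ∈ S, g v = g' v) → (E g ↔ E g')) → ∀ χ : Pl → ℝ, Cc χ →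
      (∀ z, 0 ≤ χ z ∧ χ z ≤ 1) → (∀ z, χ z ≠ 0 → t * (1 + η) ≤ dist z p ∧ dist z p ≤ t * A) →
      Mr (fun g => ic (fun g => Bk 0 δ p (t * κ) t g ∧ E g) g * Xd δ χ g ^ (2 * n)) ≤
        C * t ^ (4 * n) * Mp (fun g => Bk 0 δ p (t * κ) t g ∧ E g) := by
  classical
  obtain ⟨C, hC, hunit⟩ := c3_unit hd hF hZ (A := A + 1) hκ hκ1 n
  refine ⟨C, hC, fun p t ht => ?_⟩
  -- the filter at the scale `t`
  have htend : Tendsto (fun δ : ℝ => δ / t) (𝓝[>] (0 : ℝ)) (𝓝[>] (0 : ℝ)) := by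
    refine tendsto_nhdsWithin_iff.2 ⟨?_, ?_⟩
    · have h1 : Tendsto (fun δ : ℝ => δ / t) (𝓝 0) (𝓝 (0 / t)) := (continuous_id.div_const t).tendsto 0
      rw [zero_div] at h1
      exact h1.mono_left nhdsWithin_le_nhds
    · filter_upwards [self_mem_nhdsWithin] with δ hδ
      exact div_pos hδ ht
  have hpos' : ∀ᶠ δ in 𝓝[>] (0 : ℝ), 0 < δ := self_mem_nhdsWithin
  filter_upwards [htend.eventually hunit, hpos', htend.eventually (u5_ev (show 0 < η by exact hη)),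
    htend.eventually (u5_ev (show (0 : ℝ) < 1 by norm_num)),
    htend.eventually (u5_ev (show (0 : ℝ) < κ by exact hκ)),
    htend.eventually (u5_ev (show (0 : ℝ) < 1 - κ by linarith))] with δ h0 hδ hδη hδ1 hδκ hδκ1 S E hS hE hEl χ hχ
    hχ1 hχs
  obtain ⟨d, hdd⟩ : ∃ d, d = δ / t := ⟨_, rfl⟩
  rw [← hdd] at h0 hδη hδ1 hδκ hδκ1
  have hd0 : 0 < d := by rw [hdd]; positivity
  have hδd : δ = t * d := by rw [hdd]; field_simp
  obtain ⟨q, hq⟩ : ∃ q : Pl, q = (p.1 / t, p.2 / t) := ⟨_, rfl⟩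
  have hpq : p = (t * q.1, t * q.2) := by
    rw [hq]
    ext
    · simp only; field_simp
    · simp only; field_simp
  obtain ⟨a, ha, hay⟩ := even_near hd0 q
  obtain ⟨y, hy⟩ : ∃ y, y = q - pt d a := ⟨_, rfl⟩
  rw [← hy] at hay
  have hqy : q = y + pt d a := by rw [hy]; abel
  -- the block
  have hbk : ∀ g, Bk 0 δ p (t * κ) t g ↔ Bk 0 d y κ 1 (ts a g) := by
    intro g
    have h1 : Bk 0 δ p (t * κ) t g ↔ Bk 0 δ (t * q.1, t * q.2) (t * κ) (t * 1) g := by rw [← hpq, mul_one]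
    rw [h1, bk_scale ht, ← hdd, hqy, bk_shift]
  -- distances
  have hdist : ∀ z : Pl, dist (t * (z + pt d a).1, t * (z + pt d a).2) p = t * dist z y := by
    intro z
    rw [hpq, hqy, Prod.dist_eq, Prod.dist_eq, Real.dist_eq, Real.dist_eq, Real.dist_eq, Real.dist_eq]
    simp only [Prod.fst_add, Prod.snd_add]
    rw [show t * (z.1 + (pt d a).1) - t * (y.1 + (pt d a).1) = t * (z.1 - y.1) by ring,
      show t * (z.2 + (pt d a).2) - t * (y.2 + (pt d a).2) = t * (z.2 - y.2) by ring, abs_mul, abs_mul,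
      abs_of_pos ht, mul_max_of_nonneg _ _ ht.le]
  -- the test function
  obtain ⟨ψ, hψ⟩ : ∃ ψ : Pl → ℝ, ψ = fun z => χ (t * (z + pt d a).1, t * (z + pt d a).2) := ⟨_, rfl⟩
  have hxd : ∀ g, Xd δ χ g = t ^ 2 * Xd d ψ (ts a g) := by
    intro g
    rw [xd_scale ht δ χ g, ← hdd, xd_shift d a, hψ]
  have hψ1 : ∀ z, 0 ≤ ψ z ∧ ψ z ≤ 1 := fun z => by rw [hψ]; exact hχ1 _
  have hψs : ∀ z, ψ z ≠ 0 → 1 + η ≤ dist z y ∧ dist z y ≤ A := by
    intro z hz
    rw [hψ] at hz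
    have h1 := hχs _ hz
    rw [hdist z] at h1
    exact ⟨le_of_mul_le_mul_left h1.1 ht, le_of_mul_le_mul_left h1.2 ht⟩
  have hψR : ∀ z, ψ z ≠ 0 → |z.1| ≤ |A| + 2 ∧ |z.2| ≤ |A| + 2 := by
    intro z hz
    have h1 := (hψs z hz).2
    have h2 := dist_triangle z y 0
    have h3 : dist z 0 ≤ |A| + 2 := by
      have := le_abs_self A
      linarith
    rw [Prod.dist_eq, max_le_iff, Real.dist_eq, Real.dist_eq] at h3
    simpa using h3
  -- the event
  obtain ⟨E', hE'⟩ : ∃ E' : (V → ℤ) → Prop, E' = fun g => E (ts (-a) g) := ⟨_, rfl⟩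
  have htsts : ∀ g : V → ℤ, ts (-a) (ts a g) = g := fun g => by
    funext v
    show g (v + -a + a) = g v
    rw [neg_add_cancel_right]
  have hEE' : ∀ g, E g ↔ E' (ts a g) := fun g => by rw [hE']; simp only; rw [htsts]
  have hE'dec : Dec E' := by
    rw [hE']
    refine ⟨fun g => ?_, fun g g' h0 h => ?_⟩
    · exact hE.abs (ts (-a) g)
    · exact hE.mono (ts (-a) g) (ts (-a) g') (fun v => h0 _) (fun v => h _)
  obtain ⟨S', hS'⟩ : ∃ S' : Finset V, S' = S.image (fun v => v - a) := ⟨_, rfl⟩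
  have hE'l : ∀ g g' : V → ℤ, (∀ v ∈ S', g v = g' v) → (E' g ↔ E' g') := by
    intro g g' h
    rw [hE']
    refine hEl _ _ fun v hv => ?_
    show g (v + -a) = g' (v + -a)
    refine h _ ?_
    rw [hS', Finset.mem_image]
    exact ⟨v, hv, sub_eq_add_neg v a⟩
  obtain ⟨T, hT⟩ : ∃ T : Finset V, T = (win d (|A| + 2)).filter (fun v => mass d ψ v ≠ 0) := ⟨_, rfl⟩
  have hmass : ∀ x, mass d ψ x ≠ 0 → 1 ≤ dist (pt d x) y ∧ dist (pt d x) y ≤ A + 1 := by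
    intro x hx
    have h1 : ∃ z ∈ RP4.cell d x, ψ z ≠ 0 := by
      by_contra hcon
      push Not at hcon
      exact hx (setIntegral_eq_zero_of_forall_eq_zero hcon)
    obtain ⟨z, hz, hz0⟩ := h1
    have h2 := u5_cell hz
    have h3 := hψs z hz0
    have h4 := dist_triangle z (pt d x) y
    have h5 := dist_triangle (pt d x) z y
    rw [dist_comm (pt d x) z] at h5
    constructor <;> linarith
  have hSfar : ∀ v ∈ S' ∪ T, 1 ≤ dist (pt d v) y := by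
    intro v hv
    rcases Finset.mem_union.1 hv with hv | hv
    · rw [hS', Finset.mem_image] at hv
      obtain ⟨u, hu, rfl⟩ := hv
      have h1 := hS u hu
      have h2 : pt δ u = (t * (pt d (u - a) + pt d a).1, t * (pt d (u - a) + pt d a).2) := by
        rw [← pt_add, sub_add_cancel, hδd]
        unfold pt
        simp only [mul_assoc]
      rw [h2, hdist] at h1
      have h3 : t * 1 ≤ t * dist (pt d (u - a)) y := by rw [mul_one]; exact h1
      exact le_of_mul_le_mul_left h3 ht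
    · rw [hT, Finset.mem_filter] at hv
      exact (hmass v hv.2).1
  have hw1 : ∀ x, 0 ≤ mass d ψ x ∧ mass d ψ x ≤ d ^ 2 := by
    intro x
    refine ⟨setIntegral_nonneg (u5_meas d x) fun z _ => (hψ1 z).1, ?_⟩
    have h1 := norm_setIntegral_le_of_norm_le_const (μ := (volume : Measure Pl)) (s := RP4.cell d x) (C := 1)
      (f := ψ) (by
        have := u5_vol hd0 x
        by_contra hcon
        rw [not_lt, top_le_iff] at hcon
        rw [Measure.real, hcon, ENNReal.toReal_top] at this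
        have : (0 : ℝ) < d ^ 2 := by positivity
        linarith) (fun z _ => by
        rw [Real.norm_eq_abs, abs_of_nonneg (hψ1 z).1]
        exact (hψ1 z).2)
    rw [u5_vol hd0 x, one_mul] at h1
    exact (le_abs_self _).trans h1
  have hxsum : ∀ g : V → ℤ, Xd d ψ g = ∑ x ∈ S' ∪ T, mass d ψ x * (g x : ℝ) := by
    intro g
    unfold Xd
    refine tsum_eq_sum fun x hx => ?_
    have h1 : mass d ψ x = 0 := by
      by_contra h2
      refine hx (Finset.mem_union_right _ ?_)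
      rw [hT, Finset.mem_filter]
      refine ⟨?_, h2⟩
      by_contra h3
      exact h2 (GF.Lat.mass_off hd0 (by positivity) hψR h3)
    rw [h1, zero_mul]
  have key := h0 y hay (S' ∪ T) E' hSfar hE'dec (fun g g' h => hE'l g g' fun v hv =>
    h v (Finset.mem_union_left _ hv)) (mass d ψ) (fun x _ => hw1 x) (fun x _ hx => (hmass x hx).2)
  have hloc : ∀ g g' : V → ℤ, (∀ x ∈ Is d y 1 ∪ (S' ∪ T), g x = g' x) →
      Xd d ψ g ^ (2 * n) = Xd d ψ g' ^ (2 * n) := by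
    intro g g' h
    rw [hxsum, hxsum]
    congr 1
    exact Finset.sum_congr rfl fun x hx => by rw [h x (Finset.mem_union_right _ hx)]
  have hPR : PR (Is d y 1 ∪ (S' ∪ T)) (ic fun g => Bk 0 d y κ 1 g ∧ E' g) :=
    bmm_PR hd0 hδκ.le (by linarith) Finset.subset_union_left fun g g' h => hE'l g g' fun v hv =>
      h v (Finset.mem_union_right _ (Finset.mem_union_left _ hv))
  have e1 : Mp (fun g => Bk 0 δ p (t * κ) t g ∧ E g) = Mp (fun g => Bk 0 d y κ 1 g ∧ E' g) := by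
    have h1 := Mr_ts hd hPR ha
    unfold Mp
    rw [← h1]
    congr 1
    funext g
    unfold ic
    congr 1
    exact propext (and_congr (hbk g) (hEE' g))
  have e2 : Mr (fun g => ic (fun g => Bk 0 δ p (t * κ) t g ∧ E g) g * Xd δ χ g ^ (2 * n)) =
      t ^ (4 * n) * Mr (fun g => ic (fun g => Bk 0 d y κ 1 g ∧ E' g) g * Xd d ψ g ^ (2 * n)) := by
    have hF := hPR.mul hloc
    have h1 := Mr_ts hd (hF.mul (G := fun _ => t ^ (4 * n)) fun _ _ _ => rfl) ha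
    have h4 := Mr_smul hd hF (t ^ (4 * n))
    rw [← h4]
    have h5 : (fun g => t ^ (4 * n) * (ic (fun g => Bk 0 d y κ 1 g ∧ E' g) g * Xd d ψ g ^ (2 * n))) =
        fun g => ic (fun g => Bk 0 d y κ 1 g ∧ E' g) g * Xd d ψ g ^ (2 * n) * t ^ (4 * n) := by
      funext g
      ring
    rw [h5, ← h1]
    congr 1
    funext g
    rw [hxd g, mul_pow, ← pow_mul, show 2 * (2 * n) = 4 * n by ring]
    have h3 : ic (fun g => Bk 0 δ p (t * κ) t g ∧ E g) g = ic (fun g => Bk 0 d y κ 1 g ∧ E' g) (ts a g) := by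
      unfold ic
      congr 1
      exact propext (and_congr (hbk g) (hEE' g))
    rw [h3]
    ring
  rw [e1, e2]
  simp only [hxsum]
  calc t ^ (4 * n) * _ ≤ t ^ (4 * n) * (C * Mp (fun g => Bk 0 d y κ 1 g ∧ E' g)) :=
        mul_le_mul_of_nonneg_left key (by positivity)
    _ = _ := by ring

/-- (C2): moments of the field given two pins and any finite family of blocks off the pins, one constant for all families -/
theorem u5_far (hd : Deloc) (hF : FlatC) (hZC : ZoneC) {y₁ y₂ : Pl} {r s : ℝ} (hr : 0 < r) (hrs : r < s)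
    (h12 : 2 * s < dist y₁ y₂) {f : Pl → ℝ} (hf : Cc f) (n : ℕ) : ∃ C > 0, ∀ Z : Finset (Pl × ℝ × ℝ),
      (∀ z ∈ Z, z.2.1 < z.2.2) → (∀ z ∈ Z, s + z.2.2 ≤ dist z.1 y₁ ∧ s + z.2.2 ≤ dist z.1 y₂) →
      ∀ l : Filter ℝ, l ≤ 𝓝[>] 0 → (∀ᶠ δ in l, 0 < MR (SW.iw (WE y₁ y₂ r s Z δ))) →
      ∀ᶠ δ in l, qt (fun δ => SW.iw (WE y₁ y₂ r s Z δ)) (fun δ g => Xd δ f g ^ (2 * n)) δ ≤ C := by
  obtain ⟨C, hC, h⟩ := bar_mom hd hF hZC y₁ y₂ hr hrs h12 hf n
  refine ⟨C, hC, fun Z hZ hoff l hl hpos => ?_⟩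
  have h1 : ∀ᶠ δ in l, 0 < δ := hl self_mem_nhdsWithin
  filter_upwards [hl h, hl (ev_all hZ), h1, hpos] with δ h2 h3 h4 h5
  have h6 := h2 (wsit Z δ) (BlkF Z δ) (fun v hv => by
    obtain ⟨z, hz, hvz⟩ := (mem_wsit h4).1 hv
    obtain ⟨a1, a2⟩ := hoff z hz
    have b1 := dist_triangle z.1 (pt δ v) y₁
    have b2 := dist_triangle z.1 (pt δ v) y₂
    rw [dist_comm z.1 (pt δ v)] at b1 b2
    constructor <;> linarith) (dec_blkF Z δ) fun g g' hg => blkF_loc h4 h3 hg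
  unfold qt
  rw [div_le_iff₀ h5]
  have e : (fun g => ic (fun g => Bk 0 δ y₁ r s g ∧ Bk 0 δ y₂ r s g ∧ BlkF Z δ g) g * Xd δ f g ^ (2 * n)) =
      fun g => Xd δ f g ^ (2 * n) * SW.iw (WE y₁ y₂ r s Z δ) g := by
    funext g
    rw [mul_comm]
    rfl
  rw [e] at h6
  exact h6

/-- (C3): moments of the field near a block given two pins and the block; the constant depends only on `κ`, `A`, `η`, `n` -/
theorem u5_near (hd : Deloc) (hF : FlatC) (hZC : ZoneC) {κ A η : ℝ} (hκ : 0 < κ) (hκ1 : κ < 1) (hη : 0 < η) (n : ℕ) :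
    ∃ C > 0, ∀ (y₁ y₂ p : Pl) (r s t : ℝ), 0 < r → r < s → 0 < t → s + t ≤ dist p y₁ → s + t ≤ dist p y₂ →
      ∀ l : Filter ℝ, l ≤ 𝓝[>] 0 → (∀ᶠ δ in l, 0 < MR (SW.iw (WE y₁ y₂ r s {(p, t * κ, t)} δ))) →
      ∀ᶠ δ in l, ∀ χ : Pl → ℝ, Cc χ → (∀ z, 0 ≤ χ z ∧ χ z ≤ 1) →
        (∀ z, χ z ≠ 0 → t * (1 + η) ≤ dist z p ∧ dist z p ≤ t * A) →
        qt (fun δ => SW.iw (WE y₁ y₂ r s {(p, t * κ, t)} δ)) (fun δ g => Xd δ χ g ^ (2 * n)) δ ≤ C * t ^ (4 * n) := by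
  classical
  obtain ⟨C, hC, h⟩ := c3 hd hF hZC (κ := κ) (A := A) (η := η) hκ hκ1 hη n
  refine ⟨C, hC, fun y₁ y₂ p r s t hr hrs ht hp1 hp2 l hl hpos => ?_⟩
  have h1 : ∀ᶠ δ in l, 0 < δ := hl self_mem_nhdsWithin
  filter_upwards [hl (h p t ht), h1, hl (u5_ev (show 0 < s - r by linarith)), hpos] with δ h2 h4 h3 h5 χ hχ hχ1 hχs
  have hloc : ∀ g g' : V → ℤ, (∀ v ∈ Is δ y₁ s ∪ Is δ y₂ s, g v = g' v) →
      ((Bk 0 δ y₁ r s g ∧ Bk 0 δ y₂ r s g) ↔ (Bk 0 δ y₁ r s g' ∧ Bk 0 δ y₂ r s g')) := by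
    intro g g' hg
    refine and_congr ?_ ?_
    · exact bk_loc h4 (by linarith) fun v hv => hg v (Finset.mem_union_left _ ((mem_Is h4).2 hv.le))
    · exact bk_loc h4 (by linarith) fun v hv => hg v (Finset.mem_union_right _ ((mem_Is h4).2 hv.le))
  have h6 := h2 (Is δ y₁ s ∪ Is δ y₂ s) (fun g => Bk 0 δ y₁ r s g ∧ Bk 0 δ y₂ r s g) (fun v hv => by
    have b1 := dist_triangle p (pt δ v) y₁
    have b2 := dist_triangle p (pt δ v) y₂
    rw [dist_comm p (pt δ v)] at b1 b2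
    rcases Finset.mem_union.1 hv with hv | hv
    · have := (mem_Is h4).1 hv
      linarith
    · have := (mem_Is h4).1 hv
      linarith) (dec_and (bk_dec _ _ _ _) (bk_dec _ _ _ _)) hloc χ hχ hχ1 hχs
  have hWE : ∀ g, (Bk 0 δ p (t * κ) t g ∧ Bk 0 δ y₁ r s g ∧ Bk 0 δ y₂ r s g) ↔ WE y₁ y₂ r s {(p, t * κ, t)} δ g := by
    intro g
    unfold WE
    simp only [Finset.mem_singleton, forall_eq]
    tauto
  have e0 : Mp (fun g => Bk 0 δ p (t * κ) t g ∧ Bk 0 δ y₁ r s g ∧ Bk 0 δ y₂ r s g) =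
      MR (SW.iw (WE y₁ y₂ r s {(p, t * κ, t)} δ)) := by
    unfold Mp
    show Mr _ = Mr _
    congr 1
    funext g
    unfold ic SW.iw
    congr 1
    exact propext (hWE g)
  unfold qt
  rw [div_le_iff₀ h5]
  have e : (fun g => ic (fun g => Bk 0 δ p (t * κ) t g ∧ Bk 0 δ y₁ r s g ∧ Bk 0 δ y₂ r s g) g * Xd δ χ g ^ (2 * n)) =
      fun g => Xd δ χ g ^ (2 * n) * SW.iw (WE y₁ y₂ r s {(p, t * κ, t)} δ) g := by
    funext g
    rw [mul_comm]
    unfold ic SW.iw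
    congr 2
    exact propext (hWE g)
  rw [e, e0] at h6
  exact h6

end DV
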