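import Pool.Agent.Helper94.BR.Ms

/-!
# Project DV, UP half, (U5): one block moment near the block, uniform in the centre and in the scale

Unit scale: the block has radii `κ < 1` and its centre `y` is at distance at most `2 δ` from the origin.
-/

open Finset Filter Topology MeasureTheory

namespace DV

open RP4 (V par bdry dom mass avg Om BdryPar Deloc)
open GF (Cc Pl Ne)
open GF.Lat (Xd win)

lemma u5_ev {c : ℝ} (hc : 0 < c) : ∀ᶠ δ in 𝓝[>] (0 : ℝ), δ < c :=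
  nhdsWithin_le_nhds (Iio_mem_nhds hc)

/-- a block centred near the origin contains a block centred at the origin -/
lemma inn_near {δ : ℝ} {y : Pl} (hy : dist y 0 ≤ 2 * δ) {r r' : ℝ} (h : r + 2 * δ ≤ r') :
    Inn δ y r ⊆ Inn δ 0 r' ∧ Inn δ 0 r ⊆ Inn δ y r' := by
  constructor
  · intro v hv
    have h1 : dist (pt δ v) y ≤ r := hv
    show dist (pt δ v) 0 ≤ r'
    have := dist_triangle (pt δ v) y 0
    linarith
  · intro v hv
    have h1 : dist (pt δ v) 0 ≤ r := hv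
    show dist (pt δ v) y ≤ r'
    have := dist_triangle (pt δ v) 0 y
    rw [dist_comm 0 y] at this
    linarith

lemma out_near {δ : ℝ} {y : Pl} (hy : dist y 0 ≤ 2 * δ) {r r' : ℝ} (h : r + 2 * δ ≤ r') :
    Out δ y r' ⊆ Out δ 0 r ∧ Out δ 0 r' ⊆ Out δ y r := by
  constructor
  · intro v hv
    have h1 : r' ≤ dist (pt δ v) y := hv
    show r ≤ dist (pt δ v) 0
    have := dist_triangle (pt δ v) 0 y
    rw [dist_comm 0 y] at this
    linarith
  · intro v hv
    have h1 : r' ≤ dist (pt δ v) 0 := hv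
    show r ≤ dist (pt δ v) y
    have := dist_triangle (pt δ v) y 0
    linarith

lemma u5_vol {δ : ℝ} (hδ : 0 < δ) (x : V) : (volume : Measure Pl).real (RP4.cell δ x) = δ ^ 2 := by
  have h : (volume : Measure (ℝ × ℝ)) (RP4.cell δ x) = ENNReal.ofReal (δ ^ 2) := by
    unfold RP4.cell
    rw [Measure.volume_eq_prod, Measure.prod_prod, Real.volume_Ico, Real.volume_Ico,
      ← ENNReal.ofReal_mul (by nlinarith)]
    congr 1
    ring
  rw [Measure.real, h, ENNReal.toReal_ofReal (by positivity)]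

lemma u5_meas (δ : ℝ) (x : V) : MeasurableSet (RP4.cell δ x) :=
  measurableSet_Ico.prod measurableSet_Ico

lemma u5_cell {δ : ℝ} {x : V} {z : Pl} (hz : z ∈ RP4.cell δ x) : dist z (pt δ x) ≤ δ := by
  obtain ⟨⟨h2, h3⟩, h4, h5⟩ := hz
  rw [Prod.dist_eq, max_le_iff, Real.dist_eq, Real.dist_eq, abs_le, abs_le]
  unfold pt
  refine ⟨⟨?_, ?_⟩, ?_, ?_⟩ <;> simp only <;> nlinarith

/-- the cells of the points near the origin have mass `δ ^ 2` for a large bump -/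
lemma mass_one {φ : Pl → ℝ} {R : ℝ} (hR : ∀ z : Pl, dist z 0 ≤ R → φ z = 1) {δ : ℝ} (hδ : 0 < δ)
    {x : V} (hx : dist (pt δ x) 0 + δ ≤ R) : mass δ φ x = δ ^ 2 := by
  have h1 : ∀ z ∈ RP4.cell δ x, φ z = 1 := by
    intro z hz
    refine hR z ?_
    have := dist_triangle z (pt δ x) 0
    have := u5_cell hz
    linarith
  unfold mass
  rw [setIntegral_congr_fun (u5_meas δ x) h1, setIntegral_const, u5_vol hδ, smul_eq_mul, mul_one]

/-- **unit scale form** -/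
theorem c3_unit (hd : Deloc) (hF : FlatC) (hZ : ZoneC) {κ A : ℝ} (hκ : 0 < κ) (hκ1 : κ < 1) (n : ℕ) :
    ∃ C > 0, ∀ᶠ δ in 𝓝[>] (0 : ℝ), ∀ y : Pl, dist y 0 ≤ 2 * δ → ∀ (S : Finset V) (E : (V → ℤ) → Prop),
      (∀ v ∈ S, 1 ≤ dist (pt δ v) y) → Dec E →
      (∀ g g' : V → ℤ, (∀ v ∈ S, g v = g' v) → (E g ↔ E g')) → ∀ w : V → ℝ,
      (∀ x ∈ S, 0 ≤ w x ∧ w x ≤ δ ^ 2) → (∀ x ∈ S, w x ≠ 0 → dist (pt δ x) y ≤ A) →
      Mr (fun g => ic (fun g => Bk 0 δ y κ 1 g ∧ E g) g * (∑ x ∈ S, w x * (g x : ℝ)) ^ (2 * n)) ≤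
        C * Mp (fun g => Bk 0 δ y κ 1 g ∧ E g) := by
  classical
  -- the bump
  obtain ⟨φ, hφ, hφ1, -, W, -, hKW, hφW⟩ := GF.exists_cutoff (Metric.closedBall (0 : Pl) (A + 1)) Set.univ
    (isCompact_closedBall _ _) isOpen_univ (Set.subset_univ _)
  have hφR : ∀ z : Pl, dist z 0 ≤ A + 1 → φ z = 1 := fun z hz =>
    hφW z (hKW (Metric.mem_closedBall.2 hz))
  obtain ⟨R, hR, hRφ⟩ := GF.Lat.cc_box hφ
  -- the small block
  obtain ⟨L, hLW, hpos⟩ := bar_pos hd hF (W := 2) (by norm_num)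
  obtain ⟨r₀, hr₀, hgd⟩ := exists_gd hZ L (half_pos hκ)
  obtain ⟨ra, hra⟩ : ∃ ra, ra = min r₀ (κ / 4) := ⟨_, rfl⟩
  have hra0 : 0 < ra := by rw [hra]; exact lt_min hr₀ (by positivity)
  have hra1 : ra ≤ κ / 4 := by rw [hra]; exact min_le_right _ _
  obtain ⟨c, hc, hcM⟩ := hpos {((0 : Pl), ra, κ / 2)} (by
    intro z hz
    rw [Finset.mem_singleton] at hz
    subst hz
    refine ⟨hra0, by simp only; linarith, by simp only [dist_self]; linarith, hgd ra hra0 ?_⟩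
    rw [hra]
    exact min_le_left _ _) (Finset.singleton_nonempty _)
  obtain ⟨C₂, hC₂⟩ := bk_mom hd (0 : Pl) (r := ra / 4) (s := 2) (by positivity) (by linarith) hφ n
  have hmx : 0 < max C₂ 1 := lt_max_of_lt_right one_pos
  refine ⟨1 / c * max C₂ 1, by positivity, ?_⟩
  have hpos' : ∀ᶠ δ in 𝓝[>] (0 : ℝ), 0 < δ := self_mem_nhdsWithin
  filter_upwards [hcM, hC₂, hpos', u5_ev (show 0 < ra / 8 by positivity),
    u5_ev (show 0 < (1 - κ) / 2 by linarith), u5_ev (show (0 : ℝ) < 1 / 4 by norm_num)] with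
    δ hcδ hmδ hδ hδ1 hδ2 hδ3 y hy S E hS hE hEl w hw hwA
  -- lower bound for the small block at `y`
  have hy2 : dist y 0 ≤ 2 * δ := hy
  have hsub0 : Inn δ y (ra / 2) ⊆ Inn δ 0 ra := (inn_near hy (by linarith)).1
  have hXs : (Inn δ y κ)ᶜᶜ ⊆ (Is δ y κ : Set V) := by
    rw [compl_compl, coe_Is hδ]
  have hdj1 : Disjoint (Inn δ y (ra / 2)) (nb (Inn δ y κ)ᶜ) := disj_Inn_compl hδ (by linarith)
  have hdj0 : Disjoint (Inn δ (0 : Pl) ra) (nb (Out δ (0 : Pl) (κ / 2))) := disj_Inn_Out hδ (by linarith)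
  have hn1 : (Inn δ y (ra / 2)).Nonempty := Inn_nonempty hδ y (by linarith)
  have hn0 : (Inn δ (0 : Pl) ra).Nonempty := Inn_nonempty hδ 0 (by linarith)
  have hlow : c ≤ Mp (Sep (Inn δ y (ra / 2)) (Inn δ y κ)ᶜ) := by
    refine hcδ.trans ?_
    have h1 : (fun g : V → ℤ => ∀ z ∈ ({((0 : Pl), ra, κ / 2)} : Finset (Pl × ℝ × ℝ)),
        Bk 0 δ z.1 z.2.1 z.2.2 g) = Sep (Inn δ 0 ra) (Out δ 0 (κ / 2)) := by
      funext g
      apply propext
      constructor
      · intro h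
        have h2 := h _ (Finset.mem_singleton_self _)
        rw [bk_zero] at h2
        exact h2
      · intro h z hz
        rw [Finset.mem_singleton] at hz
        subst hz
        rw [bk_zero]
        exact h
    rw [h1]
    refine Mr_mono hd (PR_sep' hn0 hdj0 (compl_Out_sub hδ 0 (κ / 2))) (PR_sep' hn1 hdj1 hXs) fun g => ic_mono ?_
    intro h
    refine h.mono hsub0 fun v hv => ?_
    have h2 : v ∈ Out δ y κ := by
      have h3 : ¬ dist (pt δ v) y ≤ κ := hv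
      exact (not_le.1 h3).le
    exact (out_near hy (by linarith)).1 h2
  have key := pin_mom_c hd (r' := ra / 2) (r := κ) (s := 1) hδ (by linarith) (by linarith) (by linarith) hc
    hlow S E hS hE hEl (2 * n) w fun x hx => (hw x hx).1
  refine key.trans ?_
  -- nonnegativity of the mass
  have hPRE : PR (Is δ y 1 ∪ S) (ic fun g => Bk 0 δ y κ 1 g ∧ E g) :=
    bmm_PR hδ (by linarith) (by linarith) Finset.subset_union_left fun g g' h => hEl g g' fun v hv =>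
      h v (Finset.mem_union_right _ hv)
  have hMp : 0 ≤ Mp (fun g => Bk 0 δ y κ 1 g ∧ E g) := Mr_nonneg hd hPRE fun g => ic_nonneg _ g
  refine mul_le_mul_of_nonneg_right (mul_le_mul_of_nonneg_left ?_ (by positivity)) hMp
  refine le_trans ?_ (hmδ.trans (le_max_left _ _))
  -- the set and the weights
  obtain ⟨T, hT⟩ : ∃ T, T = S ∪ win δ R := ⟨_, rfl⟩
  obtain ⟨w', hw'⟩ : ∃ w' : V → ℝ, w' = fun x => if x ∈ S then w x else 0 := ⟨_, rfl⟩
  have hwS : ∀ x, x ∈ S → w' x = w x := fun x hx => by simp only [hw', if_pos hx]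
  have hwN : ∀ x, x ∉ S → w' x = 0 := fun x hx => by simp only [hw', if_neg hx]
  have e1 : ∀ g : V → ℤ, ∑ x ∈ S, w x * (g x : ℝ) = ∑ x ∈ T, w' x * (g x : ℝ) := by
    intro g
    rw [hT, ← Finset.sum_subset (Finset.subset_union_left (s₁ := S) (s₂ := win δ R))]
    · exact Finset.sum_congr rfl fun x hx => by rw [hwS x hx]
    · intro x _ hx
      rw [hwN x hx, zero_mul]
  have e2 : ∀ g : V → ℤ, Xd δ φ g = ∑ x ∈ T, mass δ φ x * (g x : ℝ) := fun g =>
    GF.Lat.Xd_eq hδ hR.le hRφ (by rw [hT]; exact Finset.subset_union_right) g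
  have hdom : ∀ x ∈ T, |w' x| ≤ mass δ φ x := by
    intro x _
    have h0 : 0 ≤ mass δ φ x := setIntegral_nonneg (u5_meas δ x) fun z _ => (hφ1 z).1
    by_cases hx : x ∈ S
    · rw [hwS x hx, abs_of_nonneg (hw x hx).1]
      by_cases h2 : w x = 0
      · rw [h2]
        exact h0
      · have h3 := hwA x hx h2
        have h4 := dist_triangle (pt δ x) y 0
        rw [mass_one hφR hδ (by linarith)]
        exact (hw x hx).2
    · rw [hwN x hx, abs_zero]
      exact h0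
  have hn2 : (Inn δ (0 : Pl) (ra / 4)).Nonempty := Inn_nonempty hδ 0 (by linarith)
  have hdj2 : Disjoint (Inn δ (0 : Pl) (ra / 4)) (nb (Out δ (0 : Pl) 2)) := disj_Inn_Out hδ (by linarith)
  have hdj3 : Disjoint (Inn δ y (ra / 2)) (nb (Out δ y 1)) := disj_Inn_Out hδ (by linarith)
  obtain ⟨U, hU⟩ : ∃ U, U = Is δ 0 2 ∪ (Is δ y 1 ∪ T) := ⟨_, rfl⟩
  have hU1 : (Out δ (0 : Pl) 2)ᶜ ⊆ (U : Set V) := by
    refine (compl_Out_sub hδ 0 2).trans ?_
    rw [hU, Finset.coe_union]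
    exact Set.subset_union_left
  have hU2 : (Out δ y 1)ᶜ ⊆ (U : Set V) := by
    refine (compl_Out_sub hδ y 1).trans ?_
    rw [hU, Finset.coe_union, Finset.coe_union]
    exact Set.subset_union_left.trans Set.subset_union_right
  have hTU : T ⊆ U := by
    rw [hU]
    exact Finset.subset_union_right.trans Finset.subset_union_right
  have hloc : ∀ u : V → ℝ, ∀ g g' : V → ℤ, (∀ x ∈ U, g x = g' x) →
      (∑ x ∈ T, u x * (g x : ℝ)) ^ (2 * n) = (∑ x ∈ T, u x * (g' x : ℝ)) ^ (2 * n) := by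
    intro u g g' h
    congr 1
    exact Finset.sum_congr rfl fun x hx => by rw [h x (hTU hx)]
  have hPR0 : PR U (ic (Sep (Inn δ (0 : Pl) (ra / 4)) (Out δ (0 : Pl) 2))) := PR_sep' hn2 hdj2 hU1
  calc Mr (fun g => ic (Bk 0 δ y (ra / 2) 1) g * (∑ x ∈ S, w x * (g x : ℝ)) ^ (2 * n))
      = Mr (fun g => ic (Sep (Inn δ y (ra / 2)) (Out δ y 1)) g * (∑ x ∈ T, w' x * (g x : ℝ)) ^ (2 * n)) := by
        simp only [e1, bk_zero]
    _ ≤ Mr (fun g => ic (Sep (Inn δ (0 : Pl) (ra / 4)) (Out δ (0 : Pl) 2)) g *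
          (∑ x ∈ T, w' x * (g x : ℝ)) ^ (2 * n)) := by
        refine Mr_mono hd (PR_sep hn1 hdj3 hU2 (hloc w')) (PR_sep hn2 hdj2 hU1 (hloc w')) fun g => ?_
        refine mul_le_mul_of_nonneg_right (ic_mono fun h => ?_) (by rw [pow_mul]; positivity)
        exact h.mono (inn_near hy (by linarith)).2 (out_near hy (by linarith)).2
    _ ≤ Mr (fun g => ic (Sep (Inn δ (0 : Pl) (ra / 4)) (Out δ (0 : Pl) 2)) g *
          (∑ x ∈ T, mass δ φ x * (g x : ℝ)) ^ (2 * n)) :=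
        Mr_dom hd hTU hPR0 (dec_sep _ _).abs (2 * n) hdom
    _ = Mr (fun g => ic (Bk 0 δ 0 (ra / 4) 2) g * Xd δ φ g ^ (2 * n)) := by
        simp only [e2, bk_zero]

end DV
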